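import Mathlib
import Pool.Agent.Lib.helper12.UExp

set_option autoImplicit false

open Pool.Agent.Lib.helper12.UExp

/-- No nonprincipal ultrafilter on the positive integers has `E₁(p,p) = E₂(p,p)`. -/
theorem Pool.Agent.Results.MP_d3b762_co.Full.result (p : Ultrafilter ℕ+) (hp : ∀ n, p ≠ pure n) :
    ¬ ∀ A : Set ℕ+, {n | {m : ℕ+ | n ^ (m : ℕ) ∈ A} ∈ p} ∈ p ↔
      {n : ℕ+ | {m | m ^ (n : ℕ) ∈ A} ∈ p} ∈ p :=
  fun h => ne p p hp hp (Ultrafilter.ext fun A => h A)
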